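import Pool.Agent.Y75.Dn.Rat

/-!
# Rationality and positivity of the trace over all fields of characteristic zero
-/

set_option autoImplicit false

namespace Pool.Agent.Y75.Dn

open Finset MonoidAlgebra
open Pool.Agent.H26R2.IdemLI (ch ch_coeff exists_spec cofs cofs_mem diag_spec diag_coeff)

universe u v w

variable {G : Type v} [Group G] {n : ℕ}

lemma isAlg : Algebra.IsAlgebraic ℚ (AlgebraicClosure ℚ) := by
  have h := AlgebraicClosure.isAlgebraic ℚ
  have e : (AlgebraicClosure.instAlgebra ℚ : Algebra ℚ (AlgebraicClosure ℚ)) =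
    DivisionRing.toRatAlgebra := Subsingleton.elim _ _
  exact e ▸ h

lemma isNormal : Normal ℚ (AlgebraicClosure ℚ) := by
  have h := isAlg
  have : IsAlgClosure ℚ (AlgebraicClosure ℚ) := ⟨inferInstance, h⟩
  exact IsAlgClosure.normal ℚ _

lemma tr_eq_diag {K : Type u} [Field K] (E : Matrix (Fin n) (Fin n) (MonoidAlgebra K G)) :
    tr K G n E = (∑ i, E i i).coeff 1 := by
  rw [diag_coeff, tr_apply]

/-- specialisation of an idempotent matrix, with its trace -/
lemma spec {K : Type u} [Field K] {L : Type w} [Field L] (A : Subring K) (θ : A →+* L)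
    (E : Matrix (Fin n) (Fin n) (MonoidAlgebra K G)) (hE : E * E = E)
    (hA : (cofs E (tr K G n E) : Set K) ⊆ A) :
    ∃ (h : tr K G n E ∈ A) (E' : Matrix (Fin n) (Fin n) (MonoidAlgebra L G)), E' * E' = E' ∧
      tr L G n E' = θ ⟨tr K G n E, h⟩ := by
  obtain ⟨htA, hcA⟩ := cofs_mem E _ A hA
  obtain ⟨E', hE', hE2⟩ := exists_spec A θ E hE hcA
  obtain ⟨h1, h2⟩ := diag_spec A θ E hcA E' hE2
  refine ⟨htA, E', hE', ?_⟩
  rw [tr_eq_diag, h2]
  congr 1
  exact Subtype.ext (tr_eq_diag E).symm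

/-- an idempotent matrix over the algebraic numbers -/
theorem exists_algNum {K : Type u} [Field K] [CharZero K]
    (E : Matrix (Fin n) (Fin n) (MonoidAlgebra K G)) (hE : E * E = E) :
    ∃ E' : Matrix (Fin n) (Fin n) (MonoidAlgebra (AlgebraicClosure ℚ) G), E' * E' = E' ∧
      ∀ f : Polynomial ℚ, Polynomial.aeval (tr K G n E) f = 0 →
        Polynomial.aeval (tr (AlgebraicClosure ℚ) G n E') f = 0 := by
  classical
  let T : Subalgebra ℚ K := Algebra.adjoin ℚ (cofs E (tr K G n E) : Set K)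
  have hft : Algebra.FiniteType ℚ T := by
    rw [← Subalgebra.fg_iff_finiteType]
    exact ⟨_, rfl⟩
  obtain ⟨L, _, _, _, ⟨π⟩⟩ := Pool.Agent.H23R2.exists_point T
  let ι : L →ₐ[ℚ] AlgebraicClosure ℚ := IsAlgClosed.lift
  let ψ : T →ₐ[ℚ] AlgebraicClosure ℚ := ι.comp π
  obtain ⟨h, E', hE', htr⟩ := spec T.toSubring (ψ : T →+* AlgebraicClosure ℚ) E hE
    (Algebra.subset_adjoin)
  refine ⟨E', hE', fun f hf => ?_⟩
  have h1 : Polynomial.aeval (⟨tr K G n E, h⟩ : T) f = 0 := by
    apply Subtype.ext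
    rw [← Subalgebra.coe_val, ← Polynomial.aeval_algHom_apply]
    exact hf
  have h2 : tr (AlgebraicClosure ℚ) G n E' = ψ ⟨tr K G n E, h⟩ := htr
  rw [h2, Polynomial.aeval_algHom_apply, h1, map_zero]

/-- the trace of an idempotent matrix over the algebraic numbers is rational -/
theorem tr_rat_algNum (hG : ∀ g : G, IsOfFinOrder g → g = 1)
    (E : Matrix (Fin n) (Fin n) (MonoidAlgebra (AlgebraicClosure ℚ) G)) (hE : E * E = E) :
    ∃ q : ℚ, (q : AlgebraicClosure ℚ) = tr (AlgebraicClosure ℚ) G n E := by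
  classical
  have hA := isAlg
  have hN := isNormal
  let S : Set (AlgebraicClosure ℚ) := (cofs E (tr (AlgebraicClosure ℚ) G n E) : Set _)
  let M : IntermediateField ℚ (AlgebraicClosure ℚ) := IntermediateField.adjoin ℚ S
  have hMfin : FiniteDimensional ℚ M := by
    apply IntermediateField.finiteDimensional_adjoin
    intro x _
    exact Algebra.IsIntegral.isIntegral x
  let N : IntermediateField ℚ (AlgebraicClosure ℚ) :=
    IntermediateField.normalClosure ℚ M (AlgebraicClosure ℚ)
  have hMN : M ≤ N := IntermediateField.le_normalClosure M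
  have hNfin : FiniteDimensional ℚ N := normalClosure.is_finiteDimensional ℚ M _
  have hNnf : NumberField N := { to_charZero := inferInstance, to_finiteDimensional := hNfin }
  have hNn : Normal ℚ N := normalClosure.normal ℚ M _
  have hNgal : IsGalois ℚ N := { }
  let A : Subring (AlgebraicClosure ℚ) := N.toSubalgebra.toSubring
  let θ : A →+* N :=
    { toFun := fun x => ⟨x.1, x.2⟩
      map_one' := rfl
      map_mul' := fun _ _ => rfl
      map_zero' := rfl
      map_add' := fun _ _ => rfl }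
  obtain ⟨h, E', hE', htr⟩ := spec A θ E hE
    (fun x hx => hMN (IntermediateField.subset_adjoin ℚ S hx))
  obtain ⟨q, hq⟩ := tr_rat_numberField hG E' hE'
  refine ⟨q, ?_⟩
  rw [htr] at hq
  have h1 := congrArg (algebraMap N (AlgebraicClosure ℚ)) hq
  rw [map_ratCast] at h1
  exact h1

/-- **The trace of an idempotent matrix over the group algebra of a torsion-free group is
rational.** -/
theorem tr_rat {K : Type u} [Field K] [CharZero K] (hG : ∀ g : G, IsOfFinOrder g → g = 1)
    (E : Matrix (Fin n) (Fin n) (MonoidAlgebra K G)) (hE : E * E = E) :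
    ∃ q : ℚ, (q : K) = tr K G n E := by
  obtain ⟨E', hE', hf⟩ := exists_algNum E hE
  obtain ⟨q, hq⟩ := tr_rat_algNum hG E' hE'
  have halg : IsIntegral ℚ (tr K G n E) := (tr_algebraic hG E hE).isIntegral
  have h1 := hf (minpoly ℚ (tr K G n E)) (minpoly.aeval _ _)
  rw [← hq] at h1
  have h2 : (minpoly ℚ (tr K G n E)).IsRoot q := by
    rw [Polynomial.IsRoot.def]
    have h3 : Polynomial.aeval (algebraMap ℚ (AlgebraicClosure ℚ) q)
      (minpoly ℚ (tr K G n E)) = 0 := by
      rw [eq_ratCast]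
      exact h1
    rw [Polynomial.aeval_algebraMap_apply] at h3
    simpa using h3
  have h3 := Polynomial.degree_eq_one_of_irreducible_of_root (minpoly.irreducible halg) h2
  obtain ⟨r, hr⟩ := minpoly.mem_range_of_degree_eq_one ℚ (tr K G n E) h3
  exact ⟨r, by rw [← hr]; exact (eq_ratCast (algebraMap ℚ K) r).symm⟩

/-- **Positivity of the trace of an idempotent.** -/
theorem coeff_one_nonneg {K : Type u} [Field K] [CharZero K] (e : MonoidAlgebra K G)
    (he : e * e = e) (q : ℚ) (hq : (q : K) = e.coeff 1) : 0 ≤ q := by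
  let E : Matrix (Fin 1) (Fin 1) (MonoidAlgebra K G) := Matrix.of fun _ _ => e
  have hE : E * E = E := by
    ext1 i j
    rw [Matrix.mul_apply, Fin.sum_univ_one]
    exact he
  have htr : tr K G 1 E = e.coeff 1 := by
    rw [tr_apply, Fin.sum_univ_one]
    rfl
  obtain ⟨E', hE', hf⟩ := exists_algNum E hE
  have h1 := hf (Polynomial.X - Polynomial.C q) (by
    rw [map_sub, Polynomial.aeval_X, Polynomial.aeval_C, htr, ← hq, eq_ratCast, sub_self])
  rw [map_sub, Polynomial.aeval_X, Polynomial.aeval_C, eq_ratCast, sub_eq_zero] at h1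
  have hA := isAlg
  let ι : AlgebraicClosure ℚ →+* ℂ := (IsAlgClosed.lift : AlgebraicClosure ℚ →ₐ[ℚ] ℂ).toRingHom
  let e' : MonoidAlgebra ℂ G := ch ι G (E' 0 0)
  have he' : e' * e' = e' := by
    show ch ι G (E' 0 0) * ch ι G (E' 0 0) = ch ι G (E' 0 0)
    rw [← map_mul]
    congr 1
    have := congrFun (congrFun hE' 0) 0
    rwa [Matrix.mul_apply, Fin.sum_univ_one] at this
  have h2 : e'.coeff 1 = (q : ℂ) := by
    show (ch ι G (E' 0 0)).coeff 1 = _
    rw [ch_coeff]
    have h3 : (E' 0 0).coeff 1 = (q : AlgebraicClosure ℚ) := by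
      rw [← h1, tr_apply, Fin.sum_univ_one]
    rw [h3, map_ratCast]
  classical
  have h3 := (Pool.Agent.H71R2.Idem.Kap.coeff_one_re_nonneg e' he').1
  rw [h2] at h3
  have h4 : ((q : ℂ)).re = (q : ℝ) := Complex.ratCast_re q
  rw [h4] at h3
  exact_mod_cast h3

end Pool.Agent.Y75.Dn
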