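import Pool.Agent.Y75.Dn.Univ
import Pool.Agent.H23R2.Der
import Pool.Agent.H23R2.Fin
import Pool.Agent.W401.Cheb.Main

/-!
# The trace of an idempotent matrix over the group algebra of a torsion-free group is rational
-/

set_option autoImplicit false

namespace Pool.Agent.Y75.Dn

open Finset MonoidAlgebra
open Pool.Agent.H26R2.IdemLI (ch ch_coeff exists_spec cofs cofs_mem diag_spec diag_coeff)

universe u v

variable {G : Type v} [Group G] {n : ℕ}

/-- `t ^ p` and `t` -/
lemma tr_frob {K : Type u} [CommRing K] (O : Subring K) {p : ℕ} [hp : Fact p.Prime]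
    (hG : ∀ g : G, g ^ p = 1 → g = 1) (x : Matrix (Fin n) (Fin n) (MonoidAlgebra K G))
    (hx : ∀ i j g, (x i j).coeff g ∈ O) :
    ∃ b ∈ O, tr K G n (x ^ p) = tr K G n x ^ p + p * b := by
  obtain ⟨a, haO, ha⟩ := witt_components O hG x hx 1
  have h0 := ha 0 (by omega)
  have h1 := ha 1 le_rfl
  rw [pow_zero, pow_one] at h0
  simp only [zero_add, Finset.sum_range_one, pow_zero, Nat.sub_self, one_mul, pow_one] at h0
  rw [pow_one, Finset.sum_range_succ, Finset.sum_range_one] at h1
  simp only [pow_zero, one_mul, Nat.sub_zero, pow_one, Nat.sub_self] at h1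
  exact ⟨a 1, haO 1, by rw [h1, h0]⟩

lemma tr_mem {K : Type u} [CommRing K] (O : Subring K)
    (x : Matrix (Fin n) (Fin n) (MonoidAlgebra K G)) (hx : ∀ i j g, (x i j).coeff g ∈ O) :
    tr K G n x ∈ O := by
  rw [tr_apply]
  exact Subring.sum_mem _ fun i _ => hx _ _ _

lemma der_mem {K : Type u} [Field K] [DecidableEq K] (D : Derivation ℤ K K) (s : Finset K) (x : K)
    (hx : x ∈ Algebra.adjoin ℤ (s : Set K)) :
    D x ∈ Algebra.adjoin ℤ ((s ∪ s.image D : Finset K) : Set K) := by
  have hsub : ((s : Finset K) : Set K) ⊆ ((s ∪ s.image D : Finset K) : Set K) := by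
    rw [Finset.coe_union]
    exact Set.subset_union_left
  induction hx using Algebra.adjoin_induction with
  | mem x hx =>
    apply Algebra.subset_adjoin
    rw [Finset.coe_union, Finset.coe_image]
    exact Or.inr ⟨x, hx, rfl⟩
  | algebraMap r =>
    rw [D.map_algebraMap]
    exact Subalgebra.zero_mem _
  | add x y _ _ hx hy =>
    rw [map_add]
    exact Subalgebra.add_mem _ hx hy
  | mul x y hx' hy' hx hy =>
    rw [Derivation.leibniz, smul_eq_mul, smul_eq_mul]
    exact Subalgebra.add_mem _ (Subalgebra.mul_mem _ (Algebra.adjoin_mono hsub hx') hy)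
      (Subalgebra.mul_mem _ (Algebra.adjoin_mono hsub hy') hx)

/-- the trace of an idempotent matrix is algebraic -/
theorem tr_algebraic {K : Type u} [Field K] [CharZero K] (hG : ∀ g : G, IsOfFinOrder g → g = 1)
    (E : Matrix (Fin n) (Fin n) (MonoidAlgebra K G)) (hE : E * E = E) :
    IsAlgebraic ℚ (tr K G n E) := by
  classical
  by_contra htr
  obtain ⟨D, hD⟩ := Pool.Agent.H23R2.exists_derivation (tr K G n E) htr
  set t := tr K G n E with ht
  let s : Finset K := cofs E t
  let s' : Finset K := s ∪ s.image D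
  have hfin := Pool.Agent.H23R2.finite_dvd_primes s' (D t) hD
  apply Nat.infinite_setOfPred_prime
  refine hfin.subset ?_
  intro p hp
  have hp : p.Prime := hp
  refine ⟨hp, ?_⟩
  have : Fact p.Prime := ⟨hp⟩
  let O : Subring K := (Algebra.adjoin ℤ (s : Set K)).toSubring
  have hO : (cofs E t : Set K) ⊆ O := Algebra.subset_adjoin
  obtain ⟨htO, hcO⟩ := cofs_mem E t O hO
  have hGp : ∀ g : G, g ^ p = 1 → g = 1 := fun g hg =>
    hG g (isOfFinOrder_iff_pow_eq_one.2 ⟨p, hp.pos, hg⟩)
  obtain ⟨b, hb, hbt⟩ := tr_frob O hGp E hcO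
  have hpow : E ^ p = E := by
    have h1 : ∀ k : ℕ, E ^ (k + 1) = E := by
      intro k
      induction k with
      | zero => simp
      | succ k ih => rw [pow_succ, ih, hE]
    obtain ⟨k, hk⟩ : ∃ k, p = k + 1 := ⟨p - 1, by have := hp.pos; omega⟩
    rw [hk, h1]
  rw [hpow, ← ht] at hbt
  have h1 : D t = p * (t ^ (p - 1) * D t + D b) := by
    have h2 := congrArg D hbt
    rw [map_add, Derivation.leibniz_pow, Derivation.leibniz, ← map_natCast (algebraMap ℤ K) p,
      D.map_algebraMap, map_natCast] at h2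
    simp only [smul_eq_mul, nsmul_eq_mul, mul_zero, add_zero] at h2
    conv_lhs => rw [h2]
    ring
  refine ⟨t ^ (p - 1) * D t + D b, ?_, h1⟩
  have hsub : ((s : Finset K) : Set K) ⊆ ((s' : Finset K) : Set K) := by
    rw [Finset.coe_union]
    exact Set.subset_union_left
  have htO' : t ∈ Algebra.adjoin ℤ (s : Set K) := htO
  exact Subalgebra.add_mem _ (Subalgebra.mul_mem _ (Subalgebra.pow_mem _
    (Algebra.adjoin_mono hsub htO') _) (der_mem D s t htO')) (der_mem D s b hb)

open NumberField Pool.Agent.W401.Cheb in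
/-- the trace of an idempotent matrix over a Galois number field is rational -/
theorem tr_rat_numberField {L : Type} [Field L] [NumberField L] [IsGalois ℚ L]
    (hG : ∀ g : G, IsOfFinOrder g → g = 1)
    (E : Matrix (Fin n) (Fin n) (MonoidAlgebra L G)) (hE : E * E = E) :
    ∃ q : ℚ, (q : L) = tr L G n E := by
  classical
  set t := tr L G n E with ht
  have halgZ : Algebra.IsAlgebraic ℤ L := by
    have h1 : Algebra.IsAlgebraic ℤ ℚ := IsLocalization.isAlgebraic ℚ (nonZeroDivisors ℤ)
    exact Algebra.IsAlgebraic.trans ℤ ℚ L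
  obtain ⟨y, hy0, hy⟩ := Algebra.IsAlgebraic.exists_integral_multiples ℤ (cofs E t)
  have hyK : ((y : ℤ) : L) ≠ 0 := by exact_mod_cast hy0
  let O : Subring L := (integralClosure ℤ L).toSubring
  have hmem : ∀ x ∈ cofs E t, ((y : ℤ) : L) * x ∈ O := by
    intro x hx
    have := hy x hx
    rw [zsmul_eq_mul] at this
    exact this
  obtain ⟨htm, hcm⟩ : ((y : ℤ) : L) * t ∈ O ∧ ∀ i j g, ((y : ℤ) : L) * (E i j).coeff g ∈ O := by
    constructor
    · exact hmem t (by unfold cofs; exact Finset.mem_insert_self _ _)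
    · intro i j g
      by_cases hg : (E i j).coeff g = 0
      · rw [hg, mul_zero]; exact O.zero_mem
      · apply hmem
        unfold cofs
        exact Finset.mem_insert_of_mem (Finset.mem_biUnion.2
          ⟨(i, j), Finset.mem_univ _, Finset.mem_image_of_mem _ (Finsupp.mem_support_iff.2 hg)⟩)
  let x : Matrix (Fin n) (Fin n) (MonoidAlgebra L G) := ((y : ℤ) : L) • E
  have hx : ∀ i j g, (x i j).coeff g ∈ O := fun i j g => hcm i j g
  let z : 𝓞 L := ⟨((y : ℤ) : L) * t, htm⟩
  have key : ∀ g : Gal(L/ℚ), g • z = z := by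
    intro g
    by_contra hne
    have hw : g • z - z ≠ 0 := sub_ne_zero.2 hne
    let m : ℕ := Ideal.absNorm (Ideal.span {g • z - z})
    have hm0 : m ≠ 0 := by
      rw [Ne, Ideal.absNorm_eq_zero_iff, Ideal.span_singleton_eq_bot]
      exact hw
    have hmm : (m : 𝓞 L) ∈ Ideal.span {g • z - z} := Ideal.absNorm_mem _
    obtain ⟨c, hc⟩ := Ideal.mem_span_singleton.1 hmm
    -- a large prime with Frobenius `g`
    obtain ⟨p, hp1, hp2⟩ := (infinite_frob L g).exists_gt (m + y.natAbs)
    obtain ⟨hpp, hxp⟩ := hp1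
    have hpp : p.Prime := hpp
    have : Fact p.Prime := ⟨hpp⟩
    unfold xp at hxp
    rw [dif_pos hpp] at hxp
    have hne2 : Nonempty {φ : 𝓞 L →+* AlgebraicClosure (ZMod p) // HasFrob p φ g} := by
      by_contra hcon
      rw [not_nonempty_iff] at hcon
      exact hxp Nat.card_of_isEmpty
    obtain ⟨⟨φ, hφ⟩⟩ := hne2
    have hGp : ∀ g : G, g ^ p = 1 → g = 1 := fun g hg =>
      hG g (isOfFinOrder_iff_pow_eq_one.2 ⟨p, hpp.pos, hg⟩)
    obtain ⟨b, hb, hbt⟩ := tr_frob O hGp x hx
    have hpow : E ^ p = E := by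
      have h1 : ∀ k : ℕ, E ^ (k + 1) = E := by
        intro k
        induction k with
        | zero => simp
        | succ k ih => rw [pow_succ, ih, hE]
      obtain ⟨k, hk⟩ : ∃ k, p = k + 1 := ⟨p - 1, by have := hpp.pos; omega⟩
      rw [hk, h1]
    have h1 : tr L G n (x ^ p) = ((y : ℤ) : L) ^ p * t := by
      show tr L G n ((((y : ℤ) : L) • E) ^ p) = _
      rw [smul_pow, hpow, map_smul, smul_eq_mul]
    have h2 : tr L G n x = ((y : ℤ) : L) * t := by
      show tr L G n (((y : ℤ) : L) • E) = _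
      rw [map_smul, smul_eq_mul]
    let b' : 𝓞 L := ⟨b, hb⟩
    have h3 : ((y : ℤ) : 𝓞 L) ^ (p - 1) * z = z ^ p + (p : 𝓞 L) * b' := by
      apply RingOfIntegers.coe_injective
      push_cast
      show ((y : ℤ) : L) ^ (p - 1) * (((y : ℤ) : L) * t) = (((y : ℤ) : L) * t) ^ p + (p : L) * b
      rw [← h2, ← hbt, h1, h2, ← mul_assoc, ← pow_succ,
        show p - 1 + 1 = p by have := hpp.pos; omega]
    have hyp : ¬ (p : ℤ) ∣ y := by
      intro h
      have h4 := Nat.le_of_dvd (Int.natAbs_pos.2 hy0) (Int.natCast_dvd.1 h)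
      omega
    have hcp : CharP (AlgebraicClosure (ZMod p)) p :=
      charP_of_injective_algebraMap (algebraMap (ZMod p) _).injective p
    have hyφ : (((y : ℤ) : AlgebraicClosure (ZMod p))) ^ (p - 1) = 1 := by
      have h5 : ((y : ℤ) : ZMod p) ≠ 0 := by
        rw [Ne, ZMod.intCast_zmod_eq_zero_iff_dvd]
        exact hyp
      have h6 := ZMod.pow_card_sub_one_eq_one h5
      have h7 := congrArg (algebraMap (ZMod p) (AlgebraicClosure (ZMod p))) h6
      simpa using h7
    have h4 := congrArg φ h3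
    rw [map_mul, map_pow, map_intCast, hyφ, one_mul, map_add, map_pow, map_mul, map_natCast,
      CharP.cast_eq_zero, zero_mul, add_zero] at h4
    have h5 : φ (g • z - z) = 0 := by
      rw [map_sub, hφ z, ← h4, sub_self]
    have h6 : ((m : ℕ) : AlgebraicClosure (ZMod p)) = 0 := by
      rw [← map_natCast φ m, hc, map_mul, h5, zero_mul]
    rw [CharP.cast_eq_zero_iff (AlgebraicClosure (ZMod p)) p] at h6
    have h7 := Nat.le_of_dvd (Nat.pos_of_ne_zero hm0) h6
    omega
  have hfix : ∀ g : Gal(L/ℚ), g (((y : ℤ) : L) * t) = ((y : ℤ) : L) * t := by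
    intro g
    have := congrArg (fun a : 𝓞 L => (a : L)) (key g)
    exact this
  have h1 : ((y : ℤ) : L) * t ∈ (⊥ : IntermediateField ℚ L) :=
    (IsGalois.mem_bot_iff_fixed _).2 hfix
  obtain ⟨q, hq⟩ := IntermediateField.mem_bot.1 h1
  refine ⟨q / y, ?_⟩
  push_cast
  have hq' : (q : L) = ((y : ℤ) : L) * t := by
    rw [← hq]
    exact (eq_ratCast (algebraMap ℚ L) q).symm
  rw [hq', mul_div_assoc, mul_comm, div_mul_cancel₀ _ hyK]

end Pool.Agent.Y75.Dn
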