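import Pool.Agent.Y75.Dn.Words
import Pool.Agent.H26R2.IdemLI.Cls

/-!
# Integrality of the Witt components of the traces of the `p`-power powers

`G` without elements of order `p`, `x` a matrix over `K[G]` with coefficients in a subring `O`: the
traces of `x ^ (p ^ m)` are the ghost components of a sequence of elements of `O`.
-/

set_option autoImplicit false

namespace Pool.Agent.Y75.Dn

open Finset MonoidAlgebra
open Pool.Agent.H26R2.IdemLI (ch ch_coeff)

universe u v w

section Trace

variable {G : Type v} [Group G] {n : ℕ} {R : Type u} [CommRing R]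

lemma coeff_one_comm (x y : MonoidAlgebra R G) : (x * y).coeff 1 = (y * x).coeff 1 := by
  classical
  induction x using MonoidAlgebra.induction_linear with
  | zero => simp
  | add a b ha hb => rw [add_mul, mul_add, coeff_add, coeff_add, Finsupp.add_apply,
      Finsupp.add_apply, ha, hb]
  | single g r =>
    induction y using MonoidAlgebra.induction_linear with
    | zero => simp
    | add a b ha hb => rw [add_mul, mul_add, coeff_add, coeff_add, Finsupp.add_apply,
        Finsupp.add_apply, ha, hb]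
    | single h s =>
      rw [single_mul_single, single_mul_single, coeff_single, coeff_single, Finsupp.single_apply,
        Finsupp.single_apply, mul_comm r s]
      have : g * h = 1 ↔ h * g = 1 := by
        rw [mul_eq_one_iff_eq_inv, mul_eq_one_iff_eq_inv', eq_comm, inv_eq_iff_eq_inv]
      by_cases h1 : g * h = 1
      · rw [if_pos h1, if_pos (this.1 h1)]
      · rw [if_neg h1, if_neg (fun h2 => h1 (this.2 h2))]

/-- the trace of a matrix over a group ring: the sum of the coefficients at `1` of the diagonal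
entries -/
noncomputable def tr (R : Type u) [CommRing R] (G : Type v) [Group G] (n : ℕ) :
    Matrix (Fin n) (Fin n) (MonoidAlgebra R G) →ₗ[R] R where
  toFun X := ∑ i, (X i i).coeff 1
  map_add' X Y := by
    rw [← Finset.sum_add_distrib]
    rfl
  map_smul' r X := by
    rw [RingHom.id_apply, smul_eq_mul, Finset.mul_sum]
    rfl

lemma tr_apply (X : Matrix (Fin n) (Fin n) (MonoidAlgebra R G)) :
    tr R G n X = ∑ i, (X i i).coeff 1 := rfl

lemma tr_comm (X Y : Matrix (Fin n) (Fin n) (MonoidAlgebra R G)) :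
    tr R G n (X * Y) = tr R G n (Y * X) := by
  rw [tr_apply, tr_apply]
  simp only [Matrix.mul_apply, coeff_sum, Finsupp.finsetSum_apply]
  rw [Finset.sum_comm]
  exact Finset.sum_congr rfl fun j _ => Finset.sum_congr rfl fun i _ => coeff_one_comm _ _

/-- the matrix with one entry, a group element -/
noncomputable def mu (R : Type u) [CommRing R] (i j : Fin n) (g : G) :
    Matrix (Fin n) (Fin n) (MonoidAlgebra R G) := Matrix.single i j (single g 1)

lemma tr_mu_same (i : Fin n) (g : G) [Decidable (g = 1)] :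
    tr R G n (mu R i i g) = if g = 1 then 1 else 0 := by
  classical
  rw [tr_apply, Finset.sum_eq_single i]
  · rw [mu, Matrix.single_apply_same, coeff_single, Finsupp.single_apply]
  · intro j _ hj
    rw [mu, Matrix.single_apply_of_ne _ _ _ _ _ (fun h => hj h.1.symm)]
    rfl
  · intro h; exact absurd (Finset.mem_univ _) h

lemma tr_mu_ne {i j : Fin n} (hij : i ≠ j) (g : G) : tr R G n (mu R i j g) = 0 := by
  rw [tr_apply]
  apply Finset.sum_eq_zero
  intro l _
  rw [mu, Matrix.single_apply_of_ne _ _ _ _ _ (fun h => hij (h.1.trans h.2.symm))]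
  rfl

/-- zero or a matrix with one entry, a group element -/
def IsMono (X : Matrix (Fin n) (Fin n) (MonoidAlgebra R G)) : Prop :=
  X = 0 ∨ ∃ i j g, X = mu R i j g

lemma mu_mul_mu (i j k : Fin n) (g h : G) : mu R i j g * mu R j k h = mu R i k (g * h) := by
  rw [mu, mu, Matrix.single_mul_single_same, single_mul_single, mul_one, mu]

lemma mu_mul_mu_ne (i l : Fin n) {j j' : Fin n} (hj : j ≠ j') (g h : G) :
    mu R i j g * mu R j' l h = 0 := by
  rw [mu, mu, Matrix.single_mul_single_of_ne _ _ _ _ hj]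

lemma IsMono.mul {X Y : Matrix (Fin n) (Fin n) (MonoidAlgebra R G)} (hX : IsMono X)
    (hY : IsMono Y) : IsMono (X * Y) := by
  rcases hX with rfl | ⟨i, j, g, rfl⟩
  · exact Or.inl (zero_mul _)
  rcases hY with rfl | ⟨k, l, h, rfl⟩
  · exact Or.inl (mul_zero _)
  by_cases hjk : j = k
  · subst hjk
    exact Or.inr ⟨i, l, g * h, mu_mul_mu _ _ _ _ _⟩
  · exact Or.inl (mu_mul_mu_ne i l hjk g h)

lemma isMono_prod (l : List (Matrix (Fin n) (Fin n) (MonoidAlgebra R G))) (hl : l ≠ [])
    (h : ∀ X ∈ l, IsMono X) : IsMono l.prod := by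
  induction l with
  | nil => exact absurd rfl hl
  | cons a t ih =>
    rw [List.prod_cons]
    rcases eq_or_ne t [] with rfl | ht
    · rw [List.prod_nil, mul_one]
      exact h a (by simp)
    · exact (h a (by simp)).mul (ih ht fun X hX => h X (by simp [hX]))

lemma mu_pow (i : Fin n) (g : G) (k : ℕ) : mu R i i g ^ (k + 1) = mu R i i (g ^ (k + 1)) := by
  induction k with
  | zero => simp
  | succ k ih => rw [pow_succ, ih, mu_mul_mu, ← pow_succ]

lemma tr_mono_pow {p : ℕ} (hp : p.Prime) (hG : ∀ g : G, g ^ p = 1 → g = 1)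
    {X : Matrix (Fin n) (Fin n) (MonoidAlgebra R G)} (hX : IsMono X) :
    tr R G n (X ^ p) = tr R G n X := by
  classical
  rcases hX with rfl | ⟨i, j, g, rfl⟩
  · rw [zero_pow hp.ne_zero]
  by_cases hij : i = j
  · subst hij
    obtain ⟨k, rfl⟩ : ∃ k, p = k + 1 := ⟨p - 1, by have := hp.pos; omega⟩
    rw [mu_pow, tr_mu_same, tr_mu_same]
    by_cases hg : g = 1
    · rw [if_pos hg, if_pos (by rw [hg, one_pow])]
    · rw [if_neg hg, if_neg fun h => hg (hG g h)]
  · obtain ⟨d, hd⟩ := Nat.exists_eq_add_of_le hp.two_le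
    have h1 : mu R i j g ^ p = 0 := by
      rw [hd, pow_add, pow_two, mu_mul_mu_ne i j (Ne.symm hij), zero_mul]
    rw [h1, map_zero, tr_mu_ne hij]

lemma tr_mono {X : Matrix (Fin n) (Fin n) (MonoidAlgebra R G)} (hX : IsMono X) :
    tr R G n X = 0 ∨ tr R G n X = 1 := by
  classical
  rcases hX with rfl | ⟨i, j, g, rfl⟩
  · left; exact map_zero _
  by_cases hij : i = j
  · subst hij
    rw [tr_mu_same]
    split_ifs
    · right; rfl
    · left; rfl
  · left; exact tr_mu_ne hij g

end Trace

section Univ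

lemma expand_sub_pow {S : Type w} {p : ℕ} [hp : Fact p.Prime] (x : MvPolynomial S ℤ) :
    (p : MvPolynomial S ℤ) ∣ MvPolynomial.expand p x - x ^ p := by
  have h1 : (MvPolynomial.C (p : ℤ) : MvPolynomial S ℤ) ∣ MvPolynomial.expand p x - x ^ p := by
    rw [MvPolynomial.C_dvd_iff_zmod, map_sub, map_pow, MvPolynomial.map_expand,
      MvPolynomial.expand_zmod, sub_self]
  simpa using h1

lemma prod_smul {P A S : Type*} [CommRing P] [Ring A] [Algebra P A] (x : S → P) (b : S → A)
    (m : ℕ) (u : Fin m → S) : (List.ofFn fun i => x (u i) • b (u i)).prod =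
      (∏ i, x (u i)) • (List.ofFn fun i => b (u i)).prod := by
  induction m with
  | zero => simp
  | succ m ih =>
    rw [List.ofFn_succ, List.prod_cons, ih, List.ofFn_succ, List.prod_cons, Fin.prod_univ_succ,
      smul_mul_smul_comm]

variable {G : Type v} [Group G] {n : ℕ}

/-- the generic element -/
noncomputable def xi (n : ℕ) (F : Finset G) :
    Matrix (Fin n) (Fin n) (MonoidAlgebra (MvPolynomial (Fin n × Fin n × F) ℤ) G) :=
  ∑ s : Fin n × Fin n × F, (MvPolynomial.X s : MvPolynomial (Fin n × Fin n × F) ℤ) •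
    mu _ s.1 s.2.1 (s.2.2 : G)

/-- the traces of the powers of the generic element -/
noncomputable def st (n : ℕ) (F : Finset G) (k : ℕ) : MvPolynomial (Fin n × Fin n × F) ℤ :=
  tr _ G n (xi n F ^ k)

lemma st_eq (F : Finset G) (k : ℕ) : st n F k = ∑ u : Fin k → Fin n × Fin n × F,
    (∏ i, MvPolynomial.X (u i)) * tr _ G n (List.ofFn fun i => mu
      (MvPolynomial (Fin n × Fin n × F) ℤ) (u i).1 (u i).2.1 ((u i).2.2 : G)).prod := by
  rw [st, xi, Pool.Agent.H23R2.Cyc.sum_pow_words, map_sum]
  refine Finset.sum_congr rfl fun u _ => ?_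
  rw [prod_smul (fun s => (MvPolynomial.X s : MvPolynomial (Fin n × Fin n × F) ℤ))
    (fun s => mu (MvPolynomial (Fin n × Fin n × F) ℤ) s.1 s.2.1 (s.2.2 : G)), map_smul,
    smul_eq_mul]

/-- **The congruences for the traces of the generic element** -/
theorem st_congr (F : Finset G) {p : ℕ} [hp : Fact p.Prime] (hG : ∀ g : G, g ^ p = 1 → g = 1)
    (m : ℕ) : (p : MvPolynomial (Fin n × Fin n × F) ℤ) ^ (m + 1) ∣
      st n F (p ^ (m + 1)) - MvPolynomial.expand p (st n F (p ^ m)) := by
  set P := MvPolynomial (Fin n × Fin n × F) ℤ with hP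
  let I : Ideal P := Ideal.span {(p : P) ^ (m + 1)}
  let T : Matrix (Fin n) (Fin n) (MonoidAlgebra P G) →+ P ⧸ I :=
    ((Ideal.Quotient.mk I).toAddMonoidHom).comp (tr P G n).toAddMonoidHom
  have hTa : ∀ x, T x = Ideal.Quotient.mk I (tr P G n x) := fun x => rfl
  have hT : ∀ x y, T (x * y) = T (y * x) := by
    intro x y
    rw [hTa, hTa, tr_comm]
  have hM : ∀ x : P ⧸ I, p ^ (m + 1) • x = 0 := by
    intro x
    obtain ⟨y, rfl⟩ := Ideal.Quotient.mk_surjective x
    rw [← map_nsmul, Ideal.Quotient.eq_zero_iff_mem, Ideal.mem_span_singleton, nsmul_eq_mul]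
    push_cast
    exact Dvd.intro _ rfl
  have h1 := trace_pow' T hT m hM (fun s : Fin n × Fin n × F =>
    (MvPolynomial.X s : P) • mu P s.1 s.2.1 (s.2.2 : G))
  rw [← Ideal.mem_span_singleton, ← Ideal.Quotient.eq_zero_iff_mem, map_sub, sub_eq_zero]
  have h2 : T (xi n F ^ (p ^ (m + 1))) = Ideal.Quotient.mk I (st n F (p ^ (m + 1))) := rfl
  rw [← h2]
  show T ((∑ s : Fin n × Fin n × F, (MvPolynomial.X s : P) • mu P s.1 s.2.1 (s.2.2 : G)) ^ _) = _
  rw [h1, st_eq, map_sum, map_sum]
  refine Finset.sum_congr rfl fun u _ => ?_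
  rw [hTa]
  congr 1
  rw [prod_smul (fun s => (MvPolynomial.X s : P)) (fun s => mu P s.1 s.2.1 (s.2.2 : G)),
    smul_pow, map_smul, smul_eq_mul, map_mul, map_prod]
  have hmono : IsMono (List.ofFn fun i => mu P (u i).1 (u i).2.1 ((u i).2.2 : G)).prod := by
    apply isMono_prod
    · intro h
      have h3 := congrArg List.length h
      rw [List.length_ofFn, List.length_nil] at h3
      exact pow_ne_zero m hp.out.ne_zero h3
    · intro X hX
      obtain ⟨i, rfl⟩ := (List.mem_ofFn' _ _).1 hX
      exact Or.inr ⟨_, _, _, rfl⟩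
  rw [tr_mono_pow hp.out hG hmono]
  congr 1
  · rw [← Finset.prod_pow]
    refine Finset.prod_congr rfl fun i _ => ?_
    rw [MvPolynomial.expand_X]
  · rcases tr_mono hmono with h | h
    · rw [h, map_zero]
    · rw [h, map_one]

/-- specialisation of the traces -/
lemma tr_map {R : Type u} [CommRing R] {R' : Type w} [CommRing R'] (θ : R →+* R')
    (X : Matrix (Fin n) (Fin n) (MonoidAlgebra R G)) :
    tr R' G n (X.map (ch θ G)) = θ (tr R G n X) := by
  rw [tr_apply, tr_apply, map_sum]
  exact Finset.sum_congr rfl fun i _ => ch_coeff _ _ _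

open Classical in
lemma xi_map {K : Type u} [CommRing K] (F : Finset G)
    (x : Matrix (Fin n) (Fin n) (MonoidAlgebra K G)) (hF : ∀ i j, (x i j).coeff.support ⊆ F) :
    (xi n F).map (ch (MvPolynomial.eval₂Hom (Int.castRingHom K)
      (fun s : Fin n × Fin n × F => (x s.1 s.2.1).coeff s.2.2)) G) = x := by
  set ev := MvPolynomial.eval₂Hom (Int.castRingHom K)
      (fun s : Fin n × Fin n × F => (x s.1 s.2.1).coeff s.2.2) with hev
  ext i j : 2
  ext g
  rw [Matrix.map_apply, ch_coeff, xi, Matrix.sum_apply, coeff_sum, Finsupp.finsetSum_apply,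
    map_sum]
  have h1 : ∀ s : Fin n × Fin n × F, ev ((((MvPolynomial.X s :
      MvPolynomial (Fin n × Fin n × F) ℤ) • mu _ s.1 s.2.1 (s.2.2 : G)) i j).coeff g) =
      if s.1 = i ∧ s.2.1 = j ∧ (s.2.2 : G) = g then (x s.1 s.2.1).coeff s.2.2 else 0 := by
    intro s
    rw [Matrix.smul_apply, coeff_smul_apply, smul_eq_mul, map_mul]
    by_cases h2 : s.1 = i ∧ s.2.1 = j
    · obtain ⟨h3, h4⟩ := h2
      rw [mu, h3, h4, Matrix.single_apply_same, coeff_single, Finsupp.single_apply]
      by_cases h5 : (s.2.2 : G) = g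
      · rw [if_pos h5, if_pos ⟨rfl, rfl, h5⟩, map_one, mul_one, hev,
          MvPolynomial.coe_eval₂Hom, MvPolynomial.eval₂_X, h3, h4]
      · rw [if_neg h5, if_neg (fun h => h5 h.2.2), map_zero, mul_zero]
    · rw [mu, Matrix.single_apply_of_ne _ _ _ _ _ h2, if_neg (fun h => h2 ⟨h.1, h.2.1⟩)]
      show ev _ * ev 0 = 0
      rw [map_zero, mul_zero]
  rw [Finset.sum_congr rfl fun s _ => h1 s]
  by_cases hg : g ∈ F
  · rw [Finset.sum_eq_single (i, j, (⟨g, hg⟩ : F))]
    · rw [if_pos ⟨rfl, rfl, rfl⟩]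
    · rintro ⟨a, b, c⟩ _ hne
      apply if_neg
      rintro ⟨h3, h4, h5⟩
      apply hne
      dsimp only at h3 h4 h5
      rw [h3, h4]
      congr 2
      exact Subtype.ext h5
    · intro h; exact absurd (Finset.mem_univ _) h
  · rw [Finset.sum_eq_zero]
    · by_contra h
      exact hg (hF i j (Finsupp.mem_support_iff.2 (Ne.symm h)))
    · intro s _
      apply if_neg
      rintro ⟨_, _, h5⟩
      exact hg (h5 ▸ s.2.2.2)

/-- **Integral Witt components of the traces of the `p`-power powers.** -/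
theorem witt_components {K : Type u} [CommRing K] (O : Subring K) {p : ℕ} [hp : Fact p.Prime]
    (hG : ∀ g : G, g ^ p = 1 → g = 1) (x : Matrix (Fin n) (Fin n) (MonoidAlgebra K G))
    (hx : ∀ i j g, (x i j).coeff g ∈ O) (N : ℕ) :
    ∃ a : ℕ → K, (∀ j, a j ∈ O) ∧ ∀ m ≤ N, tr K G n (x ^ (p ^ m)) =
      ∑ j ∈ range (m + 1), (p : K) ^ j * a j ^ (p ^ (m - j)) := by
  classical
  let F : Finset G := Finset.univ.biUnion fun q : Fin n × Fin n => (x q.1 q.2).coeff.support
  have hF : ∀ i j, (x i j).coeff.support ⊆ F := by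
    intro i j
    exact Finset.subset_biUnion_of_mem (fun q : Fin n × Fin n => (x q.1 q.2).coeff.support)
      (Finset.mem_univ (i, j))
  obtain ⟨a, ha⟩ := dwork ((MvPolynomial.expand p).toRingHom :
    MvPolynomial (Fin n × Fin n × F) ℤ →+* MvPolynomial (Fin n × Fin n × F) ℤ)
    (fun y => expand_sub_pow y) (fun m => st n F (p ^ m)) (fun m => st_congr F hG m) N
  set ev := MvPolynomial.eval₂Hom (Int.castRingHom K)
      (fun s : Fin n × Fin n × F => (x s.1 s.2.1).coeff s.2.2) with hev
  refine ⟨fun j => ev (a j), fun j => ?_, fun m hm => ?_⟩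
  · let evO : MvPolynomial (Fin n × Fin n × F) ℤ →+* O :=
      MvPolynomial.eval₂Hom (Int.castRingHom O)
        (fun s : Fin n × Fin n × F => ⟨(x s.1 s.2.1).coeff s.2.2, hx _ _ _⟩)
    have h1 : O.subtype.comp evO = ev := by
      apply MvPolynomial.ringHom_ext
      · intro r
        simp [evO, hev]
      · intro s
        simp [evO, hev]
    rw [← h1]
    exact (evO (a j)).2
  · have h1 : tr K G n (x ^ (p ^ m)) = ev (st n F (p ^ m)) := by
      rw [st, ← tr_map, Matrix.map_pow, xi_map F x hF]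
    rw [h1, ha m hm, map_sum]
    refine Finset.sum_congr rfl fun j _ => ?_
    rw [map_mul, map_pow, map_pow, map_natCast]

end Univ

end Pool.Agent.Y75.Dn
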