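import Pool.Agent.H23R2.CycWord

/-!
# Traces of `p`-power powers and Frobenius lifts

`T ((∑ a s) ^ (p ^ (m + 1)))` is, modulo `p ^ (m + 1)`, the sum over the words `u` of length `p ^ m` of
`T (u ^ p)`; Dwork's lemma.
-/

set_option autoImplicit false

namespace Pool.Agent.Y75.Dn

open Finset Pool.Agent.H23R2 Pool.Agent.H23R2.Cyc

open Classical in
/-- The trace of a `p`-power power, modulo `p ^ (m + 1)`: only words with period `p ^ m` matter. -/
theorem trace_pow {S A M : Type*} [Fintype S] [Ring A] [AddCommGroup M] (T : A →+ M)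
    (hT : ∀ x y, T (x * y) = T (y * x)) {p m : ℕ} (n : ℕ) [hp : Fact p.Prime] [NeZero n]
    (hn : n = p ^ (m + 1)) (hM : ∀ x : M, p ^ (m + 1) • x = 0) (a : S → A) :
    T ((∑ s, a s) ^ n) =
      ∑ w : ZMod n → S with shift ((p ^ m : ℕ) : ZMod n) w = w,
        T ((mpr (fun i => a (w i)) 0 (p ^ m)) ^ p) := by
  have hn0 : n ≠ 0 := NeZero.ne n
  let _ := rotAction n S
  rw [sum_pow_cyc a n, map_sum]
  obtain ⟨c0, hc0⟩ : ∃ c0 : ZMod n, c0 = ((p ^ m : ℕ) : ZMod n) := ⟨_, rfl⟩
  rw [← hc0]
  set F : (ZMod n → S) → M := fun w => T (mpr (fun i => a (w i)) 0 n) with hF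
  have hinv : ∀ (c : ZMod n) w, F (shift c w) = F w := by
    intro c w
    exact rot (fun x => T x) hT c (fun i => a (w i)) hn0
  set P : (ZMod n → S) → Prop := fun w => shift c0 w = w with hP
  have hPinv : ∀ (c : ZMod n) w, P (shift c w) ↔ P w := by
    intro c w
    simp only [hP]
    rw [shift_shift, add_comm, ← shift_shift]
    constructor
    · intro h
      have := congrArg (shift (-c)) h
      rwa [shift_neg_shift, shift_neg_shift] at this
    · intro h
      rw [h]
  have hzero : ∑ w, (if P w then 0 else F w) = 0 := by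
    refine sum_orbits (G := ZMod n) _ ?_ ?_
    · intro c w
      show (if P (shift c w) then 0 else F (shift c w)) = _
      simp only [hPinv, hinv]
    · intro w
      by_cases hw : P w
      · simp [hw]
      · simp only [hw, if_false]
        have h1 : Nat.card (AddAction.orbit (ZMod n) w) =
            (AddAction.stabilizer (ZMod n) w).index :=
          (AddAction.index_stabilizer (ZMod n) w).symm
        rw [h1]
        have h2 : (AddAction.stabilizer (ZMod n) w).index ∣ p ^ (m + 1) := by
          have h0 := (AddAction.stabilizer (ZMod n) w).index_dvd_card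
          rw [Nat.card_zmod] at h0
          exact h0.trans hn.dvd
        obtain ⟨i, _, hi⟩ := (Nat.dvd_prime_pow hp.out).mp h2
        have h3 : m + 1 ≤ i := by
          by_contra hcon
          have hcon : i ≤ m := by omega
          apply hw
          have h4 := AddSubgroup.nsmul_index_mem (AddAction.stabilizer (ZMod n) w)
            (1 : ZMod n)
          have h5 := AddSubgroup.nsmul_mem _ h4 (p ^ (m - i))
          rw [hi, smul_smul, ← pow_add, Nat.sub_add_cancel hcon, nsmul_one, ← hc0] at h5
          exact h5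
        rw [hi, show p ^ i = p ^ (i - (m + 1)) * p ^ (m + 1) by
          rw [← pow_add, Nat.sub_add_cancel h3], mul_smul, hM, smul_zero]
  have hsplit : ∑ w, F w = ∑ w, (if P w then F w else 0) := by
    have h1 : ∀ w, F w = (if P w then F w else 0) + (if P w then 0 else F w) := by
      intro w
      split_ifs <;> simp
    rw [Finset.sum_congr rfl fun w _ => h1 w, Finset.sum_add_distrib, hzero, add_zero]
  rw [hsplit, ← Finset.sum_filter]
  refine Finset.sum_congr rfl fun w hw => ?_
  have hper := mpr_periodic (p ^ m) p (fun i => a (w i)) (by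
    have h1 : shift c0 w = w := (mem_filter.mp hw).2
    rw [← hc0]
    exact congrArg (fun v : ZMod n → S => fun i => a (v i)) h1)
  rw [← hper, ← pow_succ, ← hn]

/-- a cyclic sequence with period `q` is constant on the classes modulo `q` -/
lemma periodic_eq {n q : ℕ} {S : Type*} (w : ZMod n → S)
    (h : shift ((q : ℕ) : ZMod n) w = w) (i j : ℕ) (hij : i % q = j % q) :
    w (i : ZMod n) = w (j : ZMod n) := by
  have key : ∀ (r k : ℕ), w ((r + q * k : ℕ) : ZMod n) = w (r : ZMod n) := by
    intro r k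
    have h1 := shift_mul q k w h
    have h2 := congrFun h1 (r : ZMod n)
    rw [shift_apply] at h2
    rw [← h2]
    congr 1
    push_cast
    ring
  rw [← Nat.mod_add_div i q, ← Nat.mod_add_div j q, key, key, hij]

open Classical in
/-- sums over periodic sequences are sums over sequences of the shorter length -/
lemma sum_periodic {n q r : ℕ} [NeZero n] [NeZero q] (hn : n = q * r) {S M : Type*} [Fintype S]
    [AddCommMonoid M] (F : (ℕ → S) → M) :
    ∑ w : ZMod n → S with shift ((q : ℕ) : ZMod n) w = w, F (fun i => w (i : ZMod n)) =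
      ∑ u : ZMod q → S, F (fun i => u (i : ZMod q)) := by
  have hqn : q ∣ n := ⟨r, hn⟩
  refine Finset.sum_nbij' (fun w => fun i : ZMod q => w ((i.val : ℕ) : ZMod n))
    (fun u => fun i : ZMod n => u (ZMod.castHom hqn (ZMod q) i)) ?_ ?_ ?_ ?_ ?_
  · intro w _
    exact Finset.mem_univ _
  · intro u _
    rw [mem_filter]
    refine ⟨mem_univ _, ?_⟩
    funext i
    rw [shift_apply, map_add, map_natCast, ZMod.natCast_self, add_zero]
  · intro w hw
    have h1 : shift ((q : ℕ) : ZMod n) w = w := (mem_filter.mp hw).2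
    funext i
    show w (((ZMod.castHom hqn (ZMod q) i).val : ℕ) : ZMod n) = w i
    conv_rhs => rw [← ZMod.natCast_zmod_val i]
    apply periodic_eq w h1
    have h2 : ZMod.castHom hqn (ZMod q) i = ((i.val : ℕ) : ZMod q) := by
      conv_lhs => rw [← ZMod.natCast_zmod_val i]
      rw [map_natCast]
    rw [h2, ZMod.val_natCast, Nat.mod_mod]
  · intro u _
    funext i
    show u (ZMod.castHom hqn (ZMod q) ((i.val : ℕ) : ZMod n)) = u i
    rw [map_natCast, ZMod.natCast_zmod_val]
  · intro w hw
    have h1 : shift ((q : ℕ) : ZMod n) w = w := (mem_filter.mp hw).2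
    congr 1
    funext i
    show w (i : ZMod n) = w ((((i : ZMod q)).val : ℕ) : ZMod n)
    apply periodic_eq w h1
    rw [ZMod.val_natCast, Nat.mod_mod]

lemma mpr_nat {n : ℕ} {A : Type*} [Monoid A] (g : ZMod n → A) (m : ℕ) :
    mpr g 0 m = (List.ofFn (fun i : Fin m => g ((i : ℕ) : ZMod n))).prod := by
  rw [mpr_eq_ofFn]
  simp

/-- **The trace congruence**: modulo `p ^ (m + 1)` the trace of `(∑ a s) ^ (p ^ (m + 1))` is the sum of
the traces of the `p`-th powers of the words of length `p ^ m`. -/
theorem trace_pow' {S A M : Type*} [Fintype S] [Ring A] [AddCommGroup M] (T : A →+ M)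
    (hT : ∀ x y, T (x * y) = T (y * x)) {p : ℕ} (m : ℕ) [hp : Fact p.Prime]
    (hM : ∀ x : M, p ^ (m + 1) • x = 0) (a : S → A) :
    T ((∑ s, a s) ^ (p ^ (m + 1))) =
      ∑ u : Fin (p ^ m) → S, T ((List.ofFn (fun i => a (u i))).prod ^ p) := by
  classical
  have : NeZero (p ^ (m + 1)) := ⟨pow_ne_zero _ hp.out.ne_zero⟩
  have : NeZero (p ^ m) := ⟨pow_ne_zero _ hp.out.ne_zero⟩
  rw [trace_pow T hT (p ^ (m + 1)) rfl hM a]
  have h1 := sum_periodic (n := p ^ (m + 1)) (q := p ^ m) (r := p) (pow_succ p m) (S := S)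
    (fun w : ℕ → S => T ((List.ofFn (fun i : Fin (p ^ m) => a (w i))).prod ^ p))
  simp only [mpr_nat]
  rw [h1]
  have hbij : Function.Bijective (fun i : Fin (p ^ m) => ((i : ℕ) : ZMod (p ^ m))) := by
    rw [Fintype.bijective_iff_injective_and_card]
    refine ⟨fun i j h => ?_, by rw [Fintype.card_fin, ZMod.card]⟩
    have h' : ((i : ℕ) : ZMod (p ^ m)) = ((j : ℕ) : ZMod (p ^ m)) := h
    rw [ZMod.natCast_eq_natCast_iff'] at h'
    rw [Nat.mod_eq_of_lt i.isLt, Nat.mod_eq_of_lt j.isLt] at h'
    exact Fin.ext h'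
  let e : Fin (p ^ m) ≃ ZMod (p ^ m) := Equiv.ofBijective _ hbij
  rw [← (Equiv.arrowCongr e.symm (Equiv.refl S)).sum_comp]
  rfl

/-- **Dwork's lemma** for a Frobenius lift `φ` -/
theorem dwork {P : Type*} [CommRing P] (φ : P →+* P) {p : ℕ} [hp : Fact p.Prime]
    (hφ : ∀ x, (p : P) ∣ φ x - x ^ p) (s : ℕ → P)
    (hs : ∀ m, (p : P) ^ (m + 1) ∣ s (m + 1) - φ (s m)) (N : ℕ) :
    ∃ a : ℕ → P, ∀ n ≤ N, s n = ∑ j ∈ range (n + 1), (p : P) ^ j * a j ^ (p ^ (n - j)) := by
  induction N with
  | zero =>
    refine ⟨fun _ => s 0, fun n hn => ?_⟩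
    obtain rfl : n = 0 := by omega
    simp
  | succ N ih =>
    obtain ⟨a, ha⟩ := ih
    have h1 : (p : P) ^ (N + 1) ∣
        s (N + 1) - ∑ j ∈ range (N + 1), (p : P) ^ j * a j ^ (p ^ (N + 1 - j)) := by
      have h2 : (p : P) ^ (N + 1) ∣
          φ (s N) - ∑ j ∈ range (N + 1), (p : P) ^ j * a j ^ (p ^ (N + 1 - j)) := by
        rw [ha N le_rfl, map_sum, ← Finset.sum_sub_distrib]
        apply Finset.dvd_sum
        intro j hj
        have hj' : j ≤ N := by have := mem_range.1 hj; omega
        rw [map_mul, map_pow, map_pow, map_natCast, ← mul_sub]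
        have h3 := dvd_sub_pow_of_dvd_sub (hφ (a j)) (N - j)
        rw [← pow_mul, ← pow_succ', show N - j + 1 = N + 1 - j by omega] at h3
        have h4 : (p : P) ^ (N + 1) = (p : P) ^ j * (p : P) ^ (N + 1 - j) := by
          rw [← pow_add]
          congr 1
          omega
        rw [h4]
        exact mul_dvd_mul_left _ h3
      have h3 := dvd_add (hs N) h2
      rwa [sub_add_sub_cancel] at h3
    obtain ⟨b, hb⟩ := h1
    refine ⟨Function.update a (N + 1) b, fun n hn => ?_⟩
    rcases Nat.lt_or_ge n (N + 1) with h | h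
    · rw [ha n (by omega)]
      apply Finset.sum_congr rfl
      intro j hj
      have := mem_range.1 hj
      rw [Function.update_of_ne (by omega)]
    · obtain rfl : n = N + 1 := by omega
      rw [Finset.sum_range_succ, Function.update_self, Nat.sub_self, pow_zero, pow_one, ← hb]
      have h5 : ∑ j ∈ range (N + 1), (p : P) ^ j * Function.update a (N + 1) b j ^
          (p ^ (N + 1 - j)) = ∑ j ∈ range (N + 1), (p : P) ^ j * a j ^ (p ^ (N + 1 - j)) := by
        apply Finset.sum_congr rfl
        intro j hj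
        have := mem_range.1 hj
        rw [Function.update_of_ne (by omega)]
      rw [h5]
      ring

end Pool.Agent.Y75.Dn
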